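import Pool.Agent.H322Z.GP.RocB

set_option autoImplicit false

open Pool.Agent.H322Z.GP

/-- For every restricted one-counter language `L` some restricted one-counter language lies outside
`G(L)`; so the family of restricted one-counter languages is not G-principal. -/
theorem Pool.Agent.Results.MP_773080_lc.AQ1RocNo.result :
    ∀ L : Language ℕ, IsRoc L → ∃ K : Language ℕ, IsRoc K ∧ ¬ InG L K :=
  roc_main
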