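import Pool.Agent.H322Z.GP.LinC

set_option autoImplicit false

open Pool.Agent.H322Z.GP

/-- For every linear language `L` some linear language lies outside `G(L)`; so the family of
linear languages is not G-principal. -/
theorem Pool.Agent.Results.MP_773080_lc.BQ2LinNo.result :
    ∀ L : Language ℕ, IsLinear L → ∃ K : Language ℕ, IsLinear K ∧ ¬ InG L K :=
  lin_main
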